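import Mathlib
import Pool.Agent.H.MP_c74059_gt.A

set_option autoImplicit false

namespace Pool.Agent.H.MP_1b3842_gt

open Set Cardinal Pool.Agent.H.MP_c74059_gt

/-- the diagonal step, copying prescribed patterns on intervals. -/
theorem diag (B : ℕ → Set ℕ) (M : ℕ → ℕ → ℕ) (G : ℕ → ℕ)
    (hB : ∀ j m, ∃ x, m ≤ x ∧ ∀ l ≤ j, x ∈ B l)
    (hBS : ∀ j i m, ∃ n, m ≤ n ∧ ∀ x ∈ B i, n ≤ x → x < M i n → ∀ l ≤ j, x ∈ B l) :
    ∃ b : Set ℕ, b.Infinite ∧ (∀ l, ∃ m, ∀ x ∈ b, m ≤ x → x ∈ B l) ∧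
      (∀ i m, ∃ n, m ≤ n ∧ ∀ x, n ≤ x → x < M i n → (x ∈ b ↔ x ∈ B i)) ∧
      (∀ m, ∃ k, m ≤ k ∧ ∀ x ∈ b, x < k ∨ G k ≤ x) := by
  classical
  have one : ∀ j k, ∃ (E : Set ℕ) (k' : ℕ), (∀ x ∈ E, (∀ l ≤ j, x ∈ B l) ∧ G k ≤ x ∧ k ≤ x ∧ x < k')
      ∧ E.Nonempty ∧ (∃ n, k ≤ n ∧ M (Nat.unpair j).1 n ≤ k' ∧
        ∀ x, n ≤ x → x < M (Nat.unpair j).1 n → (x ∈ E ↔ x ∈ B (Nat.unpair j).1))
      ∧ k < k' ∧ G k ≤ k' := by
    intro j k
    obtain ⟨x0, hx0, hx1⟩ := hB j (G k + k)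
    obtain ⟨n, hn1, hn2⟩ := hBS j (Nat.unpair j).1 (x0 + 1)
    refine ⟨insert x0 {x | x ∈ B (Nat.unpair j).1 ∧ n ≤ x ∧ x < M (Nat.unpair j).1 n},
      x0 + M (Nat.unpair j).1 n + 1, ?_, ⟨x0, Or.inl rfl⟩, ⟨n, by omega, by omega, ?_⟩,
      by omega, by omega⟩
    · rintro x (rfl | ⟨h1, h2, h3⟩)
      · exact ⟨hx1, by omega, by omega, by omega⟩
      · exact ⟨hn2 x h1 h2 h3, by omega, by omega, by omega⟩
    · intro x h2 h3
      refine ⟨?_, fun h => Or.inr ⟨h, h2, h3⟩⟩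
      rintro (rfl | h)
      · omega
      · exact h.1
  choose E K h1 h2 h3 h4 h5 using one
  obtain ⟨k, hk⟩ : ∃ k : ℕ → ℕ, ∀ j, k (j + 1) = K j (k j) :=
    ⟨fun j => Nat.rec 0 (fun j kj => K j kj) j, fun j => rfl⟩
  have hmono : StrictMono k := strictMono_nat_of_lt_succ fun j => by rw [hk]; exact h4 _ _
  have hle : ∀ j, j ≤ k j := fun j => hmono.le_apply
  refine ⟨{x | ∃ j, x ∈ E j (k j)}, ?_, fun l => ⟨k l, ?_⟩, fun i m => ?_, fun m => ⟨k m, hle m, ?_⟩⟩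
  · apply Set.infinite_of_forall_exists_gt
    intro a
    obtain ⟨x, hx⟩ := h2 (a + 1) (k (a + 1))
    refine ⟨x, ⟨a + 1, hx⟩, ?_⟩
    have := (h1 _ _ x hx).2.2.1
    have := hle (a + 1)
    omega
  · rintro x ⟨j, hj⟩ hx
    refine (h1 _ _ x hj).1 l ?_
    have h6 := (h1 _ _ x hj).2.2.2
    rw [← hk] at h6
    have : k l < k (j + 1) := by omega
    have := hmono.lt_iff_lt.mp this
    omega
  · obtain ⟨n, hn, hn', hs⟩ := h3 (Nat.pair i m) (k (Nat.pair i m))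
    rw [Nat.unpair_pair] at hn' hs
    rw [← hk] at hn'
    have h7 := hle (Nat.pair i m)
    have h8 := Nat.right_le_pair i m
    refine ⟨n, by omega, fun x hx hx' => ?_⟩
    rw [← hs x hx hx']
    refine ⟨?_, fun h => ⟨_, h⟩⟩
    rintro ⟨j, hj⟩
    obtain ⟨_, _, h9, h10⟩ := h1 _ _ x hj
    rw [← hk] at h10
    have h11 : k j < k (Nat.pair i m + 1) := by simp only at hn'; omega
    have h12 : k (Nat.pair i m) < k (j + 1) := by omega
    have h13 := hmono.lt_iff_lt.mp h11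
    have h14 := hmono.lt_iff_lt.mp h12
    obtain rfl : j = Nat.pair i m := by omega
    exact hj
  · rintro x ⟨j, hj⟩
    obtain ⟨_, h7, h8, h9⟩ := h1 _ _ x hj
    rw [← hk] at h9
    rcases lt_trichotomy j m with h | rfl | h
    · left
      exact h9.trans_le (hmono.monotone h)
    · right; exact h7
    · right
      have h10 : k (m + 1) ≤ k j := hmono.monotone h
      have h11 := h5 m (k m)
      rw [← hk] at h11
      omega

/-- tasks. -/
abbrev Task : Type := (ℕ → ℕ → Set (Finset ℕ)) × (ℕ → ℕ)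

theorem card_task : #Task ≤ continuum.{0} := by
  simp [Task]

open Classical in
/-- an unbounded tower that copies itself on long intervals. -/
theorem tower (hCH : continuum.{0} = aleph 1) :
    ∃ (I : Type) (_ : LinearOrder I) (b : I → Set ℕ) (G : I → ℕ → ℕ),
      Function.Surjective G ∧ (∀ t : I, (Iio t).Countable) ∧ (∀ t, (b t).Infinite) ∧
      (∀ u t, u ≤ t → ∃ m, ∀ x ∈ b t, m ≤ x → x ∈ b u) ∧
      (∀ t m, ∃ k, m ≤ k ∧ ∀ x ∈ b t, x < k ∨ G t k ≤ x) ∧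
      (∀ X : ℕ → ℕ → Set (Finset ℕ),
        (∀ t n, ∃ m, (Finset.Ico n m).filter (· ∈ b t) ∈ X n m) →
        ∃ (M : ℕ → ℕ) (u : I), (∀ n, (Finset.Ico n (M n)).filter (· ∈ b u) ∈ X n (M n)) ∧
          ∀ t, u ≤ t → ∀ m, ∃ n, m ≤ n ∧ ∀ x, n ≤ x → x < M n → (x ∈ b t ↔ x ∈ b u)) := by
  obtain ⟨I, _, _, e, he, hc⟩ := exists_enum hCH Task card_task
  let P : (t : I) → (I → Set ℕ × (ℕ → ℕ)) → Set ℕ × (ℕ → ℕ) → Prop :=
    fun t f a => a.1.Infinite ∧ (∀ u, u < t → ∃ m, ∀ x ∈ a.1, m ≤ x → x ∈ (f u).1) ∧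
      (∀ u, u < t → ∀ m, ∃ n, m ≤ n ∧ ∀ x, n ≤ x → x < (f u).2 n → (x ∈ a.1 ↔ x ∈ (f u).1)) ∧
      ((∀ n, ∃ m, (Finset.Ico n m).filter (· ∈ a.1) ∈ (e t).1 n m) →
        ∀ n, (Finset.Ico n (a.2 n)).filter (· ∈ a.1) ∈ (e t).1 n (a.2 n)) ∧
      (∀ m, ∃ k, m ≤ k ∧ ∀ x ∈ a.1, x < k ∨ (e t).2 k ≤ x)
  have hloc : ∀ t f g a, (∀ u, u < t → f u = g u) → P t f a → P t g a := by
    rintro t f g a h ⟨h1, h2, h3, h5, h6⟩
    exact ⟨h1, fun u hu => h u hu ▸ h2 u hu, fun u hu => h u hu ▸ h3 u hu, h5, h6⟩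
  have hstep : ∀ t f, (∀ u, u < t → P u f (f u)) → ∃ a, P t f a := by
    intro t f ih
    have hle : ∀ u v, v < t → u ≤ v → (∃ m, ∀ x ∈ (f v).1, m ≤ x → x ∈ (f u).1) ∧
        ∀ m, ∃ n, m ≤ n ∧ ∀ x, n ≤ x → x < (f u).2 n → (x ∈ (f v).1 ↔ x ∈ (f u).1) := by
      intro u v hv huv
      rcases huv.lt_or_eq with h | rfl
      · exact ⟨(ih v hv).2.1 u h, (ih v hv).2.2.1 u h⟩
      · exact ⟨⟨0, fun x hx _ => hx⟩, fun m => ⟨m, le_rfl, fun x _ _ => Iff.rfl⟩⟩
    have hb : ∃ b : Set ℕ, b.Infinite ∧ (∀ u, u < t → ∃ m, ∀ x ∈ b, m ≤ x → x ∈ (f u).1) ∧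
        (∀ u, u < t → ∀ m, ∃ n, m ≤ n ∧ ∀ x, n ≤ x → x < (f u).2 n → (x ∈ b ↔ x ∈ (f u).1)) ∧
        (∀ m, ∃ k, m ≤ k ∧ ∀ x ∈ b, x < k ∨ (e t).2 k ≤ x) := by
      by_cases hne : (Iio t).Nonempty
      · obtain ⟨q, hq⟩ := (hc t).exists_eq_range hne
        have hq1 : ∀ i, q i < t := fun i => by
          have : q i ∈ Iio t := hq ▸ mem_range_self i
          exact this
        have hmax : ∀ j, ∃ v, v < t ∧ (∀ l ≤ j, q l ≤ v) ∧
            ∃ m, ∀ x ∈ (f v).1, m ≤ x → ∀ l ≤ j, x ∈ (f (q l)).1 := by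
          intro j
          obtain ⟨l0, _, hl0⟩ := Finset.exists_max_image (Finset.range (j + 1)) q
            ⟨0, Finset.mem_range.mpr (by omega)⟩
          have h1 : ∀ l ≤ j, q l ≤ q l0 := fun l hl => hl0 l (Finset.mem_range.mpr (by omega))
          refine ⟨q l0, hq1 l0, h1, ?_⟩
          have h2 : ∀ l, ∃ m, l ≤ j → ∀ x ∈ (f (q l0)).1, m ≤ x → x ∈ (f (q l)).1 := by
            intro l
            by_cases hl : l ≤ j
            · obtain ⟨m, hm⟩ := (hle _ _ (hq1 l0) (h1 l hl)).1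
              exact ⟨m, fun _ => hm⟩
            · exact ⟨0, fun h => absurd h hl⟩
          choose mm hmm using h2
          refine ⟨(Finset.range (j + 1)).sup mm, fun x hx hx' l hl => hmm l hl x hx ?_⟩
          exact (Finset.le_sup (f := mm) (Finset.mem_range.mpr (by omega))).trans hx'
        obtain ⟨b, h1, h2, h3, h4⟩ := diag (fun i => (f (q i)).1) (fun i => (f (q i)).2) (e t).2
          (fun j m => by
            obtain ⟨v, hv, _, m', hm'⟩ := hmax j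
            obtain ⟨x, hx, hx'⟩ := (ih v hv).1.exists_gt (m + m')
            exact ⟨x, by omega, hm' x hx (by omega)⟩)
          (fun j i m => by
            obtain ⟨v, hv, hv', m', hm'⟩ := hmax (j + i)
            obtain ⟨n, hn, hn'⟩ := (hle (q i) v hv (hv' i (by omega))).2 (m + m')
            exact ⟨n, by omega, fun x hx h1 h2 l hl =>
              hm' x ((hn' x h1 h2).mpr hx) (by omega) l (by omega)⟩)
        refine ⟨b, h1, fun u hu => ?_, fun u hu => ?_, h4⟩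
        · obtain ⟨i, rfl⟩ : u ∈ range q := hq ▸ hu
          exact h2 i
        · obtain ⟨i, rfl⟩ : u ∈ range q := hq ▸ hu
          exact h3 i
      · obtain ⟨b, h1, _, _, h4⟩ := diag (fun _ => univ) (fun _ _ => 0) (e t).2
          (fun j m => ⟨m, le_rfl, fun _ _ => trivial⟩)
          (fun j i m => ⟨m, le_rfl, fun x _ _ _ _ _ => trivial⟩)
        exact ⟨b, h1, fun u hu => absurd ⟨u, hu⟩ hne, fun u hu => absurd ⟨u, hu⟩ hne, h4⟩
    obtain ⟨b, h1, h2, h3, h4⟩ := hb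
    by_cases hact : ∀ n, ∃ m, (Finset.Ico n m).filter (· ∈ b) ∈ (e t).1 n m
    · choose s hs1 using hact
      exact ⟨(b, s), h1, h2, h3, fun _ => hs1, h4⟩
    · exact ⟨(b, fun _ => 0), h1, h2, h3, fun h => absurd h hact, h4⟩
  obtain ⟨f, hf⟩ := wf_choice P hloc hstep
  refine ⟨I, inferInstance, fun t => (f t).1, fun t => (e t).2, fun G => ?_, hc, fun t => (hf t).1,
    fun u t hut => ?_, fun t => (hf t).2.2.2.2, fun X hX => ?_⟩
  · obtain ⟨t, ht⟩ := he (fun _ _ => ∅, G)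
    exact ⟨t, by simp [ht]⟩
  · rcases hut.lt_or_eq with h | rfl
    · exact (hf t).2.1 u h
    · exact ⟨0, fun x hx _ => hx⟩
  · obtain ⟨u, hu⟩ := he (X, fun _ => 0)
    have h5 := (hf u).2.2.2.1
    rw [hu] at h5
    refine ⟨(f u).2, u, h5 (fun n => hX u n), fun t hut => ?_⟩
    rcases hut.lt_or_eq with h | rfl
    · exact (hf t).2.2.1 u h
    · exact fun m => ⟨m, le_rfl, fun x _ _ => Iff.rfl⟩

theorem agree {a a' : ℕ → ℕ} (ha : StrictMono a) (ha' : StrictMono a') {m : ℕ}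
    (h : ∀ j < m, j ∈ range a ↔ j ∈ range a') (i : ℕ) (hi : a i < m) : a' i = a i := by
  induction i using Nat.strong_induction_on with
  | _ i ih =>
    have h0 : ∀ l < i, a' l = a l := fun l hl => ih l hl ((ha hl).trans hi)
    obtain ⟨l, hl⟩ := (h _ hi).mp ⟨i, rfl⟩
    have h1 : i ≤ l := by
      by_contra hn
      have h2 := h0 l (by omega)
      have h3 := ha (show l < i by omega)
      omega
    have h2 : a' i ≤ a i := hl ▸ ha'.monotone h1
    obtain ⟨l', hl'⟩ := (h (a' i) (by omega)).mpr ⟨i, rfl⟩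
    have h3 : i ≤ l' := by
      by_contra hn
      have h4 := h0 l' (by omega)
      have h5 := ha' (show l' < i by omega)
      omega
    have h4 := ha.monotone h3
    omega

/-- almost containment with infinite difference gives eventual domination. -/
theorem dom {c x : ℕ → ℕ} (hc : StrictMono c) (hx : StrictMono x) {m : ℕ}
    (h1 : ∀ j ∈ range x, m ≤ j → j ∈ range c) (h2 : (range c \ range x).Infinite) :
    ∃ N, ∀ n, N ≤ n → c n ≤ x n := by
  classical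
  obtain ⟨T, hT, hT'⟩ := h2.exists_subset_card_eq m
  refine ⟨T.sup id, fun n hn => ?_⟩
  by_contra hlt
  push Not at hlt
  have h3 : ((Finset.range (n + 1)).image x).filter (m ≤ ·) ∪ T ⊆ (Finset.range n).image c := by
    intro j hj
    have h4 : j ∈ range c ∧ j ≤ x n := by
      rcases Finset.mem_union.mp hj with h | h
      · obtain ⟨h5, h6⟩ := Finset.mem_filter.mp h
        obtain ⟨i, hi, rfl⟩ := Finset.mem_image.mp h5
        exact ⟨h1 _ ⟨i, rfl⟩ h6, hx.monotone (by have := Finset.mem_range.mp hi; omega)⟩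
      · have h5 : j ≤ T.sup id := Finset.le_sup (f := id) h
        have h6 : n ≤ x n := hx.le_apply
        exact ⟨(hT h).1, by omega⟩
    obtain ⟨⟨i, rfl⟩, h5⟩ := h4
    exact Finset.mem_image_of_mem _ (Finset.mem_range.mpr (hc.lt_iff_lt.mp (by omega)))
  have h4 := (Finset.card_le_card h3).trans Finset.card_image_le
  rw [Finset.card_union_of_disjoint, Finset.card_range, hT'] at h4
  · have h5 := Finset.card_filter_add_card_filter_not (s := (Finset.range (n + 1)).image x) (m ≤ ·)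
    rw [Finset.card_image_of_injective _ hx.injective, Finset.card_range] at h5
    have h6 : (((Finset.range (n + 1)).image x).filter (fun j => ¬ m ≤ j)).card ≤ m := by
      refine le_trans (Finset.card_le_card (t := Finset.range m) fun j hj => ?_) (by simp)
      have := (Finset.mem_filter.mp hj).2
      exact Finset.mem_range.mpr (by omega)
    omega
  · refine Finset.disjoint_left.mpr fun j hj hj' => (hT hj').2 ?_
    obtain ⟨i, _, rfl⟩ := Finset.mem_image.mp (Finset.mem_filter.mp hj).1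
    exact ⟨i, rfl⟩

end Pool.Agent.H.MP_1b3842_gt
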